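import Pool.Agent.N236.RT.Stm

/-!
# RT/PR: many primes in `(n, 4 n]`
-/

set_option autoImplicit false
set_option linter.all false

namespace Pool.Agent.N747.RT.PR

open Finset Filter

theorem log_small : ∃ n₀ : ℕ, ∀ n : ℕ, n₀ ≤ n → 8 * Real.log (8 * n) ≤ Real.sqrt n := by
  have h := (isLittleO_log_rpow_atTop (r := 1 / 2) (by norm_num)).bound
    (show (0 : ℝ) < 1 / 24 by norm_num)
  obtain ⟨X, hX⟩ := eventually_atTop.1 h
  refine ⟨⌈X⌉₊, fun n hn => ?_⟩
  have h1 : X ≤ 8 * n := by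
    have h2 : X ≤ n := (Nat.le_ceil X).trans (by exact_mod_cast hn)
    have h3 : (0 : ℝ) ≤ n := Nat.cast_nonneg n
    linarith
  have h4 := hX (8 * n) h1
  rw [Real.norm_eq_abs, Real.norm_eq_abs, ← Real.sqrt_eq_rpow, abs_of_nonneg (Real.sqrt_nonneg _),
    Real.sqrt_mul (by norm_num)] at h4
  have h5 : Real.sqrt 8 ≤ 3 := Real.sqrt_le_iff.2 ⟨by norm_num, by norm_num⟩
  have h6 : Real.log (8 * n) ≤ 1 / 24 * (Real.sqrt 8 * Real.sqrt n) := (le_abs_self _).trans h4
  have h7 : Real.sqrt 8 * Real.sqrt n ≤ 3 * Real.sqrt n :=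
    mul_le_mul_of_nonneg_right h5 (Real.sqrt_nonneg _)
  linarith

theorem theta_diff (n : ℕ) (hn : 1 ≤ n) : Chebyshev.theta ((4 * n : ℕ) : ℝ) - Chebyshev.theta (n : ℝ) ≤
    ((Finset.Ioc n (4 * n)).filter Nat.Prime).card * Real.log (4 * n) := by
  unfold Chebyshev.theta
  rw [Nat.floor_natCast, Nat.floor_natCast]
  have hu : (Ioc 0 (4 * n)).filter Nat.Prime =
      (Ioc 0 n).filter Nat.Prime ∪ (Ioc n (4 * n)).filter Nat.Prime := by
    rw [← Finset.filter_union, Finset.Ioc_union_Ioc_eq_Ioc (Nat.zero_le n) (by omega)]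
  have hd : Disjoint ((Ioc 0 n).filter Nat.Prime) ((Ioc n (4 * n)).filter Nat.Prime) := by
    rw [Finset.disjoint_left]
    intro a ha hb
    rw [mem_filter, mem_Ioc] at ha hb
    omega
  rw [hu, sum_union hd, add_sub_cancel_left]
  refine (sum_le_card_nsmul _ _ (Real.log (4 * n)) ?_).trans (le_of_eq (nsmul_eq_mul _ _))
  intro p hp
  rw [mem_filter, mem_Ioc] at hp
  apply Real.log_le_log
  · exact_mod_cast hp.2.pos
  · exact_mod_cast hp.1.2

theorem t_pr : Pool.Agent.N236.RT.S_PR := by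
  obtain ⟨n₀, hn₀⟩ := log_small
  refine ⟨max n₀ 1, fun n hn => ?_⟩
  have hn1 : 1 ≤ n := (le_max_right _ _).trans hn
  have hlog := hn₀ n ((le_max_left _ _).trans hn)
  by_contra hcon
  push Not at hcon
  set c := ((Finset.Ioc n (4 * n)).filter Nat.Prime).card with hc
  have h1 := theta_diff n hn1
  rw [← hc] at h1
  have h2 := Chebyshev.theta_ge (4 * n)
  have h3 := Chebyshev.theta_le_log4_mul_x (x := (n : ℝ)) (Nat.cast_nonneg n)
  have hnR : (1 : ℝ) ≤ n := by exact_mod_cast hn1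
  set s := Real.sqrt n with hs
  have hs2 : s * s = n := Real.mul_self_sqrt (Nat.cast_nonneg n)
  have hs1 : 1 ≤ s := by
    rw [hs, ← Real.sqrt_one]
    exact Real.sqrt_le_sqrt hnR
  have hcs : (c : ℝ) ≤ s := by
    rw [hs]
    apply Real.le_sqrt_of_sq_le
    exact_mod_cast hcon.le
  have h4 : Real.sqrt ((4 * n : ℕ) : ℝ) = 2 * s := by
    push_cast
    rw [Real.sqrt_mul (by norm_num), show Real.sqrt 4 = 2 by
      rw [show (4 : ℝ) = 2 ^ 2 by norm_num]
      exact Real.sqrt_sq (by norm_num)]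
  have h5 : Real.log 4 = 2 * Real.log 2 := by
    rw [show (4 : ℝ) = 2 ^ 2 by norm_num, Real.log_pow]
    norm_num
  rw [h4] at h2
  rw [h5] at h3
  push_cast at h2 h1
  set ℓ := Real.log (8 * n) with hℓ
  have hl1 : Real.log (4 * n) ≤ ℓ := by
    apply Real.log_le_log (by linarith)
    linarith
  have hl2 : Real.log (4 * n + 1) ≤ ℓ := by
    apply Real.log_le_log (by linarith)
    linarith
  have hl0 : 0 ≤ ℓ := by
    apply Real.log_nonneg
    linarith
  have h6 : (c : ℝ) * Real.log (4 * n) ≤ s * ℓ := by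
    apply mul_le_mul hcs hl1 _ (by linarith)
    apply Real.log_nonneg
    linarith
  have h7 : 2 * (2 * s) * Real.log (4 * n) ≤ 2 * (2 * s) * ℓ :=
    mul_le_mul_of_nonneg_left hl1 (by linarith)
  have h8 := Real.log_two_gt_d9
  have h9 : s * (8 * ℓ) ≤ s * s := mul_le_mul_of_nonneg_left hlog (by linarith)
  have h10 : ℓ ≤ s * ℓ := by nlinarith
  have h11 : (n : ℝ) * Real.log 2 ≥ n * 0.6931 := by
    apply mul_le_mul_of_nonneg_left _ (by linarith)
    linarith
  nlinarith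

end Pool.Agent.N747.RT.PR
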